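import Mathlib

/-!
# MP_a1177b_an : comparison of an arbitrary diagonal certificate with the master certificate
-/

set_option autoImplicit false

namespace Pool.Agent.Work.MP_a1177b_an_helper37

open Finset

variable {σ : Type*} [DecidableEq σ]

/-- Cauchy product of two families of real coefficients. -/
noncomputable def conv (f g : (σ →₀ ℕ) → ℝ) (b : σ →₀ ℕ) : ℝ :=
  ∑ p ∈ antidiagonal b, f p.1 * g p.2

lemma conv_eq (u v : MvPowerSeries σ ℝ) (b : σ →₀ ℕ) : conv u v b = (u * v) b := by
  have := MvPowerSeries.coeff_mul (R := ℝ) b u v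
  exact this.symm

lemma conv_assoc (f g h : MvPowerSeries σ ℝ) : conv (conv f g) h = conv f (conv g h) := by
  have e : ∀ u v : MvPowerSeries σ ℝ, conv u v = u * v := fun u v => funext (conv_eq u v)
  rw [e f g, e g h]
  have e1 := e (f * g) h
  have e2 := e f (g * h)
  rw [e1, e2, mul_assoc]

/-- The auxiliary family `G`. -/
noncomputable def auxG (k th lam : (σ →₀ ℕ) → ℝ) (a : σ →₀ ℕ) (b : σ →₀ ℕ) : ℝ :=
    if (b ≤ a ∧ th (a - b) ≠ 0) then
      lam b - ∑ p ∈ (antidiagonal b).attach,
        if _hp : p.1.1 ≠ 0 then k p.1.1 * auxG k th lam a p.1.2 else 0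
    else 0
  termination_by Finsupp.degree b
  decreasing_by
    have h1 := HasAntidiagonal.mem_antidiagonal.1 p.2
    have h2 : Finsupp.degree p.1.1 + Finsupp.degree p.1.2 = Finsupp.degree b := by
      rw [← map_add, h1]
    have h3 : Finsupp.degree p.1.1 ≠ 0 := by
      intro h
      exact _hp ((Finsupp.degree_eq_zero_iff _).1 h)
    omega

lemma auxG_eq (k th lam : (σ →₀ ℕ) → ℝ) (a : σ →₀ ℕ) (b : σ →₀ ℕ) :
    auxG k th lam a b = if (b ≤ a ∧ th (a - b) ≠ 0) then
      lam b - ∑ p ∈ (antidiagonal b) with p.1 ≠ 0, k p.1 * auxG k th lam a p.2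
    else 0 := by
  conv_lhs => rw [auxG]
  split_ifs with h
  · congr 1
    have := Finset.sum_attach (antidiagonal b)
      (fun p => if p.1 ≠ 0 then k p.1 * auxG k th lam a p.2 else 0)
    rw [Finset.sum_filter, ← this]
    refine Finset.sum_congr rfl fun p _ => ?_
    by_cases hp : p.1.1 = 0 <;> simp [hp]
  · rfl

lemma conv_split (f g : (σ →₀ ℕ) → ℝ) (b : σ →₀ ℕ) :
    conv f g b = f 0 * g b + ∑ p ∈ (antidiagonal b) with p.1 ≠ 0, f p.1 * g p.2 := by
  unfold conv
  rw [← Finset.sum_filter_add_sum_filter_not (antidiagonal b) (fun p => p.1 = 0)]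
  congr 1
  have : (antidiagonal b).filter (fun p => p.1 = 0) = {(0, b)} := by
    ext p
    simp only [mem_filter, HasAntidiagonal.mem_antidiagonal, mem_singleton]
    constructor
    · rintro ⟨h1, h2⟩
      rw [h2, zero_add] at h1
      exact Prod.ext h2 h1
    · rintro rfl
      simp
  rw [this]; simp

/-- The `k - 1` part. -/
noncomputable def sh (k G : (σ →₀ ℕ) → ℝ) (b : σ →₀ ℕ) : ℝ :=
  ∑ p ∈ (antidiagonal b) with p.1 ≠ 0, k p.1 * G p.2

/-- **Comparison lemma.** -/
theorem comparison (k vt th lam : (σ →₀ ℕ) → ℝ)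
    (hk0 : k 0 = 1)
    (hvt0 : vt 0 = 0)
    (hvt : ∀ b, b ≠ 0 → vt b = max 0 (k b - ∑ p ∈ (antidiagonal b) with
      p.1 ≠ 0 ∧ p.2 ≠ 0, vt p.1 * k p.2))
    (hth0 : th 0 = 0) (hth : ∀ a, 0 ≤ th a)
    (hthk : ∀ a, a ≠ 0 → k a ≤ conv th k a)
    (hthlam : ∀ a, conv th lam a ≤ lam a) (a : σ →₀ ℕ) :
    conv vt lam a ≤ lam a := by
  classical
  set G := auxG k vt lam a with hG
  -- main induction
  have hstep : ∀ b : σ →₀ ℕ, (∀ c : σ →₀ ℕ, Finsupp.degree c < Finsupp.degree b →
      0 ≤ G c ∧ conv k G c ≤ lam c) → sh k G b ≤ lam b := by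
    intro b ih
    have hlt : ∀ p ∈ antidiagonal b, p.1 ≠ 0 → Finsupp.degree p.2 < Finsupp.degree b := by
      intro p hp h
      have h1 := HasAntidiagonal.mem_antidiagonal.1 hp
      have h2 : Finsupp.degree p.1 + Finsupp.degree p.2 = Finsupp.degree b := by
        rw [← map_add, h1]
      have h3 : Finsupp.degree p.1 ≠ 0 := fun h' => h ((Finsupp.degree_eq_zero_iff _).1 h')
      omega
    have e1 : sh k G b ≤ conv (conv th k) G b := by
      rw [conv_split, show conv th k 0 = 0 by simp [conv, hth0], zero_mul, zero_add]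
      refine Finset.sum_le_sum fun p hp => ?_
      rw [mem_filter] at hp
      exact mul_le_mul_of_nonneg_right (hthk _ hp.2) (ih _ (hlt p hp.1 hp.2)).1
    have e2 : conv (conv th k) G b ≤ lam b := by
      rw [conv_assoc th k G]
      refine le_trans ?_ (hthlam b)
      rw [conv_split, conv_split th lam, hth0, zero_mul, zero_mul]
      gcongr with p hp
      · exact hth _
      · rw [mem_filter] at hp
        exact (ih _ (hlt p hp.1 hp.2)).2
    exact e1.trans e2
  have hind : ∀ n : ℕ, ∀ b : σ →₀ ℕ, Finsupp.degree b = n → 0 ≤ G b ∧ conv k G b ≤ lam b := by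
    intro n
    induction n using Nat.strong_induction_on with
    | _ n ih =>
      intro b hb
      have h1 := hstep b (fun c hc => ih _ (hb ▸ hc) c rfl)
      have h2 : G b = if (b ≤ a ∧ vt (a - b) ≠ 0) then lam b - sh k G b else 0 :=
        auxG_eq k vt lam a b
      have h3 : conv k G b = G b + sh k G b := by
        rw [conv_split, hk0, one_mul]; rfl
      rw [h3]
      split_ifs at h2 with h
      · rw [h2]
        constructor <;> linarith
      · rw [h2]
        exact ⟨le_rfl, by linarith⟩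
  have hG0 : ∀ b, 0 ≤ G b := fun b => (hind _ b rfl).1
  have hsh : sh k G a ≤ lam a := hstep a (fun c _ => hind _ c rfl)
  refine le_trans (le_of_eq ?_) hsh
  -- identity
  have hvk0 : conv vt k 0 = 0 := by simp [conv, hvt0]
  have i1 : conv vt lam a = conv vt (conv k G) a := by
    unfold conv
    refine Finset.sum_congr rfl fun p hp => ?_
    have hp' := HasAntidiagonal.mem_antidiagonal.1 hp
    by_cases h : vt p.1 = 0
    · rw [h]; simp
    · congr 1
      have h2 : G p.2 = if (p.2 ≤ a ∧ vt (a - p.2) ≠ 0) then lam p.2 - sh k G p.2 else 0 :=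
        auxG_eq k vt lam a p.2
      have h4 : a - p.2 = p.1 := by rw [← hp']; simp
      rw [if_pos ⟨by rw [← hp']; exact le_add_self, by rw [h4]; exact h⟩] at h2
      have h3 : conv k G p.2 = G p.2 + sh k G p.2 := by
        rw [conv_split, hk0, one_mul]; rfl
      change lam p.2 = conv k G p.2
      rw [h3, h2]; ring
  rw [i1, ← conv_assoc vt k G, conv_split, hvk0, zero_mul, zero_add]
  refine Finset.sum_congr rfl fun p hp => ?_
  rw [mem_filter] at hp
  have hp' := HasAntidiagonal.mem_antidiagonal.1 hp.1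
  by_cases h : vt p.1 = 0
  · have h2 : G p.2 = if (p.2 ≤ a ∧ vt (a - p.2) ≠ 0) then lam p.2 - sh k G p.2 else 0 :=
      auxG_eq k vt lam a p.2
    have h4 : a - p.2 = p.1 := by rw [← hp']; simp
    rw [h4, if_neg (by simp [h])] at h2
    rw [h2]; simp
  · congr 1
    have h5 := hvt p.1 hp.2
    have h6 : vt p.1 = k p.1 - ∑ q ∈ (antidiagonal p.1) with
      q.1 ≠ 0 ∧ q.2 ≠ 0, vt q.1 * k q.2 := by
      rcases max_choice 0 (k p.1 - ∑ q ∈ (antidiagonal p.1) with
        q.1 ≠ 0 ∧ q.2 ≠ 0, vt q.1 * k q.2) with h7 | h7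
      · rw [h7] at h5; exact absurd h5 h
      · rw [h7] at h5; exact h5
    have h8 : conv vt k p.1 = vt p.1 + ∑ q ∈ (antidiagonal p.1) with
        q.1 ≠ 0 ∧ q.2 ≠ 0, vt q.1 * k q.2 := by
      unfold conv
      rw [← Finset.sum_filter_add_sum_filter_not (antidiagonal p.1) (fun q => q.1 ≠ 0 ∧ q.2 ≠ 0),
        add_comm]
      congr 1
      rw [Finset.sum_eq_single (p.1, 0)]
      · simp [hk0]
      · intro q hq hne
        rw [mem_filter] at hq
        have hq' := HasAntidiagonal.mem_antidiagonal.1 hq.1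
        by_cases hq1 : q.1 = 0
        · rw [hq1, hvt0, zero_mul]
        · exfalso
          apply hq.2
          refine ⟨hq1, fun hq2 => hne ?_⟩
          rw [hq2, add_zero] at hq'
          exact Prod.ext hq' hq2
      · intro hnot
        exfalso
        apply hnot
        simp
    rw [h8, h6]; ring

end Pool.Agent.Work.MP_a1177b_an_helper37
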