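import Mathlib

/-!
# MP_a1177b_an : the topological end of the proof
-/

set_option autoImplicit false

namespace Pool.Agent.Work.MP_a1177b_an_helper37

open Set Filter Topology
open scoped ENNReal

variable {g : ℕ}

/-- `|x|^{2a}`. -/
noncomputable def mon (x : Fin g → ℂ) (a : Fin g →₀ ℕ) : ℝ := ∏ j, ‖x j‖ ^ (2 * a j)

lemma mon_nonneg (x : Fin g → ℂ) (a : Fin g →₀ ℕ) : 0 ≤ mon x a :=
  Finset.prod_nonneg fun _ _ => by positivity

/-- `{x : sup_a vt_a |x|^{2a} < ∞}`. -/
def bddSet (vt : (Fin g →₀ ℕ) → ℝ) : Set (Fin g → ℂ) :=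
  {x | BddAbove (Set.range fun a => vt a * mon x a)}

/-- `Ω^1_ϑ`. -/
def om1 (vt : (Fin g →₀ ℕ) → ℝ) : Set (Fin g → ℂ) :=
  {x | x ∈ interior (bddSet vt) ∧ (∑' a, ENNReal.ofReal (vt a * mon x a)) < 1}

/-- the closed polydisc with radii `R` -/
def cpoly (R : Fin g → ℝ) : Set (Fin g → ℂ) := {x | ∀ j, ‖x j‖ ≤ R j}

/-- the open polydisc with radii `R` -/
def opoly (R : Fin g → ℝ) : Set (Fin g → ℂ) := {x | ∀ j, ‖x j‖ < R j}

lemma isOpen_opoly (R : Fin g → ℝ) : IsOpen (opoly R) := by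
  have : opoly R = ⋂ j, {x : Fin g → ℂ | ‖x j‖ < R j} := by ext; simp [opoly]
  rw [this]
  exact isOpen_iInter_of_finite fun j => isOpen_lt (by fun_prop) (by fun_prop)

/-- scaling -/
lemma mon_le {x : Fin g → ℂ} {R : Fin g → ℝ} {q : ℝ} (hR : ∀ j, 0 < R j)
    (hq0 : 0 ≤ q) (hq : q ≤ 1) (hx : ∀ j, ‖x j‖ ≤ q * R j) (a : Fin g →₀ ℕ) (ha : a ≠ 0) :
    mon x a ≤ q * ∏ j, R j ^ (2 * a j) := by
  have h1 : mon x a ≤ ∏ j, (q * R j) ^ (2 * a j) := by
    unfold mon
    exact Finset.prod_le_prod (fun _ _ => by positivity) fun j _ =>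
      pow_le_pow_left₀ (norm_nonneg _) (hx j) _
  have h2 : ∏ j, (q * R j) ^ (2 * a j) = q ^ (∑ j, 2 * a j) * ∏ j, R j ^ (2 * a j) := by
    rw [← Finset.prod_pow_eq_pow_sum, ← Finset.prod_mul_distrib]
    exact Finset.prod_congr rfl fun j _ => mul_pow _ _ _
  obtain ⟨j, hj⟩ : ∃ j, a j ≠ 0 := by
    by_contra h
    push Not at h
    exact ha (Finsupp.ext h)
  have h3 : 1 ≤ ∑ j, 2 * a j := by
    have : 2 * a j ≤ ∑ j, 2 * a j := Finset.single_le_sum (f := fun j => 2 * a j)
      (fun _ _ => Nat.zero_le _) (Finset.mem_univ j)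
    omega
  have h4 : q ^ (∑ j, 2 * a j) ≤ q := by
    calc q ^ (∑ j, 2 * a j) ≤ q ^ 1 := pow_le_pow_of_le_one hq0 hq h3
      _ = q := pow_one q
  refine h1.trans ?_
  rw [h2]
  have h5 : 0 ≤ ∏ j, R j ^ (2 * a j) := Finset.prod_nonneg fun j _ => by
    have := (hR j).le
    positivity
  exact mul_le_mul_of_nonneg_right h4 h5

/-- If `Σ ϑ_a R^{2a} ≤ 1` then the open polydisc of radii `R` lies in `Ω^1_ϑ`. -/
lemma opoly_subset {vt : (Fin g →₀ ℕ) → ℝ} (hvt : ∀ a, 0 ≤ vt a) (hvt0 : vt 0 = 0)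
    {R : Fin g → ℝ} (hR : ∀ j, 0 < R j)
    (hS : (∑' a : Fin g →₀ ℕ, ENNReal.ofReal (vt a * ∏ j, R j ^ (2 * a j))) ≤ 1) :
    opoly R ⊆ om1 vt := by
  classical
  have hterm : ∀ a : Fin g →₀ ℕ, vt a * ∏ j, R j ^ (2 * a j) ≤ 1 := by
    intro a
    have := (ENNReal.le_tsum (f := fun a : Fin g →₀ ℕ =>
      ENNReal.ofReal (vt a * ∏ j, R j ^ (2 * a j))) a).trans hS
    rwa [ENNReal.ofReal_le_one] at this
  have hb : opoly R ⊆ bddSet vt := by
    intro x hx
    refine ⟨1, ?_⟩
    rintro _ ⟨a, rfl⟩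
    refine le_trans ?_ (hterm a)
    refine mul_le_mul_of_nonneg_left ?_ (hvt a)
    exact Finset.prod_le_prod (fun _ _ => by positivity) fun j _ =>
      pow_le_pow_left₀ (norm_nonneg _) (hx j).le _
  intro x hx
  refine ⟨interior_maximal hb (isOpen_opoly R) hx, ?_⟩
  -- find q
  obtain ⟨q, hq0, hq1, hq⟩ : ∃ q : ℝ, 0 ≤ q ∧ q < 1 ∧ ∀ j, ‖x j‖ ≤ q * R j := by
    rcases isEmpty_or_nonempty (Fin g) with he | hne
    · exact ⟨0, le_rfl, one_pos, fun j => he.elim j⟩
    · obtain ⟨j0, -, hj0⟩ := Finset.exists_max_image Finset.univ (fun j => ‖x j‖ / R j)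
        Finset.univ_nonempty
      refine ⟨‖x j0‖ / R j0, div_nonneg (norm_nonneg _) (hR j0).le,
        (div_lt_one (hR j0)).2 (hx j0), fun j => ?_⟩
      have := hj0 j (Finset.mem_univ j)
      rwa [div_le_iff₀ (hR j)] at this
  have h1 : (∑' a, ENNReal.ofReal (vt a * mon x a)) ≤
      ENNReal.ofReal q * ∑' a : Fin g →₀ ℕ, ENNReal.ofReal (vt a * ∏ j, R j ^ (2 * a j)) := by
    rw [← ENNReal.tsum_mul_left]
    refine ENNReal.tsum_le_tsum fun a => ?_
    rw [← ENNReal.ofReal_mul hq0]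
    refine ENNReal.ofReal_le_ofReal ?_
    by_cases ha : a = 0
    · subst ha; simp [hvt0]
    · have := mul_le_mul_of_nonneg_left (mon_le hR hq0 hq1.le hq a ha) (hvt a)
      linarith
  refine lt_of_le_of_lt (h1.trans (mul_le_mul_right hS _)) ?_
  rw [mul_one]
  rw [← ENNReal.ofReal_one]
  exact (ENNReal.ofReal_lt_ofReal_iff one_pos).2 hq1

/-- coordinatewise multiplication by `l` with all `|l_j| ≤ 1`, `l_j ≠ 0`, preserves `Ω^1_ϑ`. -/
lemma mul_mem_om1 {vt : (Fin g →₀ ℕ) → ℝ} (hvt : ∀ a, 0 ≤ vt a)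
    {l y : Fin g → ℂ} (hl : ∀ j, ‖l j‖ ≤ 1) (hl0 : ∀ j, l j ≠ 0) (hy : y ∈ om1 vt) :
    (fun j => l j * y j) ∈ om1 vt := by
  have hmon : ∀ (z : Fin g → ℂ) (a : Fin g →₀ ℕ), mon (fun j => l j * z j) a ≤ mon z a := by
    intro z a
    unfold mon
    refine Finset.prod_le_prod (fun _ _ => by positivity) fun j _ => ?_
    refine pow_le_pow_left₀ (norm_nonneg _) ?_ _
    rw [norm_mul]
    exact mul_le_of_le_one_left (norm_nonneg _) (hl j)
  have hb : ∀ z ∈ bddSet vt, (fun j => l j * z j) ∈ bddSet vt := by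
    rintro z ⟨C, hC⟩
    refine ⟨C, ?_⟩
    rintro _ ⟨a, rfl⟩
    exact le_trans (mul_le_mul_of_nonneg_left (hmon z a) (hvt a)) (hC ⟨a, rfl⟩)
  refine ⟨?_, ?_⟩
  · -- the inverse image of the interior under division
    have hcont : Continuous fun z : Fin g → ℂ => (fun j => (l j)⁻¹ * z j) := by fun_prop
    have hsub : (fun z : Fin g → ℂ => (fun j => (l j)⁻¹ * z j)) ⁻¹' (interior (bddSet vt)) ⊆
        bddSet vt := by
      intro z hz
      have h1 := hb _ (interior_subset hz)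
      have h2 : (fun j => l j * ((fun j => (l j)⁻¹ * z j) j)) = z := by
        funext j
        simp only
        rw [← mul_assoc, mul_inv_cancel₀ (hl0 j), one_mul]
      rwa [h2] at h1
    refine interior_maximal hsub (isOpen_interior.preimage hcont) ?_
    change (fun j => (l j)⁻¹ * (l j * y j)) ∈ interior (bddSet vt)
    have : (fun j => (l j)⁻¹ * (l j * y j)) = y := by
      funext j
      rw [← mul_assoc, inv_mul_cancel₀ (hl0 j), one_mul]
    rw [this]
    exact hy.1
  · refine lt_of_le_of_lt (ENNReal.tsum_le_tsum fun a => ?_) hy.2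
    exact ENNReal.ofReal_le_ofReal (mul_le_mul_of_nonneg_left (hmon y a) (hvt a))

lemma cpoly_subset_closure {vt : (Fin g →₀ ℕ) → ℝ} (hvt : ∀ a, 0 ≤ vt a)
    {y : Fin g → ℂ} (hy : y ∈ closure (om1 vt)) :
    cpoly (fun j => ‖y j‖) ⊆ closure (om1 vt) := by
  intro z hz
  rw [mem_closure_iff_seq_limit] at hy ⊢
  obtain ⟨u, hu, hlim⟩ := hy
  -- the multiplier
  set m : Fin g → ℂ := fun j => if y j = 0 then 1 else z j / y j with hm
  have hmz : ∀ j, m j * y j = z j := by
    intro j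
    by_cases h : y j = 0
    · have h1 : ‖z j‖ ≤ 0 := by simpa [h] using hz j
      have h2 : z j = 0 := by simpa using h1
      simp [hm, h, h2]
    · simp [hm, h]
  have hm1 : ∀ j, ‖m j‖ ≤ 1 := by
    intro j
    by_cases h : y j = 0
    · simp [hm, h]
    · simp only [hm, h, if_false, norm_div]
      exact div_le_one_of_le₀ (hz j) (norm_nonneg _)
  -- approximate by nonzero multipliers
  set mn : ℕ → Fin g → ℂ := fun n j => if m j = 0 then (1 / ((n : ℂ) + 1)) else m j with hmn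
  have hmn0 : ∀ n j, mn n j ≠ 0 := by
    intro n j
    by_cases h : m j = 0
    · simp only [hmn, h, if_true]
      exact one_div_ne_zero (Nat.cast_add_one_ne_zero n)
    · simp [hmn, h]
  have hmn1 : ∀ n j, ‖mn n j‖ ≤ 1 := by
    intro n j
    by_cases h : m j = 0
    · simp only [hmn, h, if_true, norm_div, norm_one]
      have h1 : ‖(n : ℂ) + 1‖ = (n : ℝ) + 1 := by
        have : ((n : ℂ) + 1) = (((n : ℝ) + 1 : ℝ) : ℂ) := by push_cast; ring
        rw [this, Complex.norm_real, Real.norm_of_nonneg (by positivity)]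
      rw [h1]
      rw [div_le_one (by positivity)]
      linarith [Nat.cast_nonneg (α := ℝ) n]
    · simp only [hmn, h, if_false]; exact hm1 j
  have hmnlim : ∀ j, Tendsto (fun n => mn n j) atTop (𝓝 (m j)) := by
    intro j
    by_cases h : m j = 0
    · simp only [hmn, h, if_true]
      exact tendsto_one_div_add_atTop_nhds_zero_nat
    · simp only [hmn, h, if_false]; exact tendsto_const_nhds
  refine ⟨fun n j => mn n j * u n j, fun n => mul_mem_om1 hvt (hmn1 n) (hmn0 n) (hu n), ?_⟩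
  rw [tendsto_pi_nhds] at hlim ⊢
  intro j
  have := (hmnlim j).mul (hlim j)
  rwa [hmz j] at this

/-- **The topological end of the proof.** -/
theorem topo_end (hg : 0 < g) {vt : (Fin g →₀ ℕ) → ℝ} (hvt : ∀ a, 0 ≤ vt a) (hvt0 : vt 0 = 0)
    (hpos : ∀ j, 0 < vt (Finsupp.single j 1))
    {Ω : Set (Fin g → ℂ)} (hΩ : IsOpen Ω) (h0 : (0 : Fin g → ℂ) ∈ Ω)
    (hcore : ∀ R : Fin g → ℝ, (∀ j, 0 < R j) → cpoly R ⊆ Ω →
      (∑' a : Fin g →₀ ℕ, ENNReal.ofReal (vt a * ∏ j, R j ^ (2 * a j))) ≤ 1) :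
    ¬ closure (om1 vt) ⊆ Ω := by
  intro hcl
  -- enlarging a compact polydisc inside Ω
  have henl : ∀ r : Fin g → ℝ, (∀ j, 0 ≤ r j) → cpoly r ⊆ Ω →
      ∃ δ > 0, cpoly (fun j => r j + δ) ⊆ Ω := by
    intro r hr hsub
    have hcomp : IsCompact (cpoly r) := by
      have : cpoly r = Set.pi univ (fun j => Metric.closedBall (0 : ℂ) (r j)) := by
        ext x; simp [cpoly, Set.mem_pi]
      rw [this]
      exact isCompact_univ_pi fun j => isCompact_closedBall _ _
    obtain ⟨δ, hδ, hth⟩ := hcomp.exists_cthickening_subset_open hΩ hsub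
    refine ⟨δ, hδ, fun x hx => hth ?_⟩
    rw [hcomp.cthickening_eq_biUnion_closedBall hδ.le]
    rw [Set.mem_iUnion₂]
    -- the nearest point
    refine ⟨fun j => if ‖x j‖ ≤ r j then x j else (r j / ‖x j‖ : ℝ) • x j, ?_, ?_⟩
    · intro j
      change ‖(if ‖x j‖ ≤ r j then x j else (r j / ‖x j‖ : ℝ) • x j)‖ ≤ r j
      split_ifs with h
      · exact h
      · push Not at h
        have h1 : 0 < ‖x j‖ := lt_of_le_of_lt (hr j) h
        rw [norm_smul, Real.norm_of_nonneg (div_nonneg (hr j) h1.le),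
          div_mul_cancel₀ _ h1.ne']
    · rw [Metric.mem_closedBall, dist_pi_le_iff hδ.le]
      intro j

      split_ifs with h
      · simpa using hδ.le
      · push Not at h
        have h1 : 0 < ‖x j‖ := lt_of_le_of_lt (hr j) h
        have h2 : x j - (r j / ‖x j‖ : ℝ) • x j = (1 - r j / ‖x j‖ : ℝ) • x j := by
          rw [sub_smul, one_smul]
        rw [dist_eq_norm, h2, norm_smul, Real.norm_of_nonneg (by
          rw [sub_nonneg, div_le_one h1]; exact h.le), sub_mul, div_mul_cancel₀ _ h1.ne', one_mul]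
        have := hx j
        simp only at this
        linarith
  -- 0 is in om1
  have hmem0 : (0 : Fin g → ℂ) ∈ om1 vt := by
    obtain ⟨δ, hδ, hs⟩ := henl (fun _ => 0) (fun _ => le_rfl) (by
      intro x hx
      have : x = 0 := by
        funext j
        have := hx j
        simpa using this
      rw [this]; exact h0)
    have hR : ∀ j : Fin g, (0 : ℝ) < (fun _ : Fin g => (0 : ℝ) + δ) j := fun j => by simpa using hδ
    exact opoly_subset hvt hvt0 hR (hcore _ hR hs) (fun j => by simpa using hδ)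
  -- om1 is not everything
  have hne : om1 vt ≠ univ := by
    intro h
    set j0 : Fin g := ⟨0, hg⟩ with hj0
    have hp := hpos j0
    set c : ℝ := vt (Finsupp.single j0 1) with hc
    set x : Fin g → ℂ := fun _ => ((1 + 1 / c : ℝ) : ℂ) with hx
    have hx1 : x ∈ om1 vt := by rw [h]; trivial
    have h1 := lt_of_le_of_lt (ENNReal.le_tsum (f := fun a => ENNReal.ofReal (vt a * mon x a))
      (Finsupp.single j0 1)) hx1.2
    rw [← ENNReal.ofReal_one, ENNReal.ofReal_lt_ofReal_iff one_pos] at h1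
    have h2 : mon x (Finsupp.single j0 1) = (1 + 1 / c) ^ 2 := by
      unfold mon
      rw [Finset.prod_eq_single j0]
      · simp only [Finsupp.single_eq_same, hx, Complex.norm_real]
        rw [Real.norm_of_nonneg (by positivity)]
      · intro j _ hj
        rw [Finsupp.single_apply, if_neg (Ne.symm hj)]; simp
      · intro h; exact absurd (Finset.mem_univ _) h
    rw [h2, ← hc] at h1
    have h3 : c * (1 + 1 / c) ^ 2 = c + 2 + 1 / c := by field_simp; ring
    rw [h3] at h1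
    have : 0 < 1 / c := by positivity
    linarith
  -- frontier point
  have hfr : (frontier (om1 vt)).Nonempty := by
    rw [Set.nonempty_iff_ne_empty]
    intro h
    have hclopen : IsClopen (om1 vt) := isClopen_iff_frontier_eq_empty.2 h
    rcases isClopen_iff.1 hclopen with h1 | h1
    · rw [h1] at hmem0; exact hmem0
    · exact hne h1
  obtain ⟨y, hy⟩ := hfr
  have hycl : y ∈ closure (om1 vt) := frontier_subset_closure hy
  obtain ⟨δ, hδ, hs⟩ := henl (fun j => ‖y j‖) (fun _ => norm_nonneg _)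
    ((cpoly_subset_closure hvt hycl).trans hcl)
  have hR : ∀ j : Fin g, (0 : ℝ) < (fun j : Fin g => ‖y j‖ + δ) j := fun j => by
    have := norm_nonneg (y j); simp only; linarith
  have hsub := opoly_subset hvt hvt0 hR (hcore _ hR hs)
  have hyint : y ∈ interior (om1 vt) :=
    interior_maximal hsub (isOpen_opoly _) (fun j => by simp only; linarith)
  exact hy.2 hyint

end Pool.Agent.Work.MP_a1177b_an_helper37
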